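import Pool.Agent.W79.PL.Defs

set_option autoImplicit false

namespace Pool.Agent.W654.PL

open Pool.Agent.W79.PL
open scoped Classical

theorem pair : S_PI → S_PIN → S_SAMP → S_PAIR := by
  intro hPI hPIN hSAMP c
  obtain ⟨C, hC⟩ := hPIN c
  refine ⟨100 * (C + 1), ?_⟩
  intro P hP hs n G hG U w hU
  obtain ⟨a0, ha0, b0, hb0, hab0⟩ := Finset.one_lt_card.mp hU
  set u := U.card with hu
  set t := Nat.log 2 u + 1 with ht
  set K := 100 * (C + 1) with hK
  set W := ∑ x, w x with hW
  by_cases hle : u ≤ K * t ^ 2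
  · refine ⟨a0, ha0, b0, hb0, hab0, ?_⟩
    exact Nat.mul_le_mul hle (Finset.sum_le_sum_of_subset (Finset.subset_univ _))
  · by_contra hcon
    push Not at hcon hle
    have ht1 : 1 ≤ t := Nat.le_add_left 1 _
    have hK1 : 100 ≤ K := by omega
    have hκ1 : 1 ≤ K * t ^ 2 := Nat.one_le_iff_ne_zero.mpr (by positivity)
    obtain ⟨Y, hY, hsep⟩ := hSAMP (Fin n) G U w (K * t ^ 2) hκ1 hle.le hcon
    have e1 : Y.card * (K * t ^ 2) ≤ 4 * t * u := by
      calc Y.card * (K * t ^ 2)
          ≤ ((2 * Nat.log 2 u + 2) * (u / (K * t ^ 2) + 1)) * (K * t ^ 2) :=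
            Nat.mul_le_mul_right _ hY
        _ = (2 * t) * (u / (K * t ^ 2) * (K * t ^ 2) + K * t ^ 2) := by rw [ht]; ring
        _ ≤ (2 * t) * (u + u) := by
            refine Nat.mul_le_mul_left _ (Nat.add_le_add (Nat.div_mul_le_self _ _) hle.le)
        _ = _ := by ring
    have e2 : Y.card * K * t ≤ 4 * u := by
      have : t * (Y.card * K * t) ≤ t * (4 * u) := by
        calc t * (Y.card * K * t) = Y.card * (K * t ^ 2) := by ring
          _ ≤ 4 * t * u := e1
          _ = _ := by ring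
      exact Nat.le_of_mul_le_mul_left this ht1
    have hYu : Y.card ≤ u := by
      have : Y.card * 100 * 1 ≤ Y.card * K * t :=
        Nat.mul_le_mul (Nat.mul_le_mul_left _ hK1) ht1
      omega
    obtain ⟨y, hyY, _⟩ := hsep a0 ha0 b0 hb0 hab0
    have hY1 : 1 ≤ Y.card := Finset.card_pos.mpr ⟨y, hyY⟩
    have hdis : Disjoint Y (U \ Y) := Finset.disjoint_sdiff
    have hsepX : Sepd G Y (U \ Y) := fun a ha b hb hab =>
      hsep a (Finset.mem_sdiff.mp ha).1 b (Finset.mem_sdiff.mp hb).1 hab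
    have hM := hC Y.card (U \ Y).card hY1 (hPI c P hP hs n G hG Y (U \ Y) hdis hsepX)
    have hlog : Nat.log 2 Y.card + 1 ≤ t := Nat.add_le_add_right (Nat.log_mono_right hYu) 1
    have hX : (U \ Y).card ≤ C * Y.card * t := hM.trans (Nat.mul_le_mul_left _ hlog)
    have hUX : u ≤ (U \ Y).card + Y.card := by
      have := Finset.card_le_card_sdiff_add_card (s := U) (t := Y)
      exact this
    have f1 : K * (U \ Y).card ≤ C * (4 * u) := by
      calc K * (U \ Y).card ≤ K * (C * Y.card * t) := Nat.mul_le_mul_left _ hX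
        _ = C * (Y.card * K * t) := by ring
        _ ≤ _ := Nat.mul_le_mul_left _ e2
    have f2 : K * Y.card ≤ 4 * u := by
      calc K * Y.card = Y.card * K * 1 := by ring
        _ ≤ Y.card * K * t := Nat.mul_le_mul_left _ ht1
        _ ≤ _ := e2
    have f3 : K * u ≤ C * (4 * u) + 4 * u := by
      calc K * u ≤ K * ((U \ Y).card + Y.card) := Nat.mul_le_mul_left _ hUX
        _ = K * (U \ Y).card + K * Y.card := by ring
        _ ≤ _ := Nat.add_le_add f1 f2
    rw [hK] at f3
    have hupos : 0 < u := by omega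
    nlinarith [Nat.zero_le (C * u)]


end Pool.Agent.W654.PL
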