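import Pool.Agent.W79.PL.Defs

set_option autoImplicit false

namespace Pool.Agent.W654.PL

open Pool.Agent.W79.PL
open scoped Classical

/-- pairs not separated by `Y` -/
noncomputable def Q {V : Type} (G : SimpleGraph V) (U Y : Finset V) : Finset (V × V) :=
  (U ×ˢ U).filter (fun p => p.1 ≠ p.2 ∧ ∀ y ∈ Y, (G.Adj y p.1 ↔ G.Adj y p.2))

theorem step {V : Type} [Fintype V] (G : SimpleGraph V) (U : Finset V) (w : V → ℕ) (κ : ℕ)
    (h1 : 1 ≤ κ) (h2 : κ ≤ U.card)
    (h : ∀ a ∈ U, ∀ b ∈ U, a ≠ b → κ * ∑ x, w x < U.card * ∑ x ∈ sep G a b, w x)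
    (Y : Finset V) : ∃ x, (Q G U (insert x Y)).card * U.card ≤ (U.card - κ) * (Q G U Y).card := by
  have hU : U.Nonempty := Finset.card_pos.mp (by omega)
  obtain ⟨x0, hx0⟩ := hU
  have hsplit : ∀ x, (Q G U (insert x Y)).card +
      ((Q G U Y).filter (fun p => x ∈ sep G p.1 p.2)).card = (Q G U Y).card := by
    intro x
    rw [← Finset.card_filter_add_card_filter_not (s := Q G U Y) (fun p => x ∈ sep G p.1 p.2),
      add_comm]
    congr 2
    ext p
    simp only [Q, sep, Finset.mem_filter, Finset.mem_product, Finset.mem_insert,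
      Finset.mem_univ, true_and, not_not]
    constructor
    · rintro ⟨hU, hne, hall⟩
      exact ⟨⟨hU, hne, fun y hy => hall y (Or.inr hy)⟩, hall x (Or.inl rfl)⟩
    · rintro ⟨⟨hU, hne, hall⟩, hx⟩
      refine ⟨hU, hne, fun y hy => ?_⟩
      rcases hy with rfl | hy
      · exact hx
      · exact hall y hy
  by_contra hcon
  push Not at hcon
  have hlt : ∀ x, U.card * ((Q G U Y).filter (fun p => x ∈ sep G p.1 p.2)).card ≤
      κ * (Q G U Y).card := by
    intro x
    have e1 := hsplit x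
    have e2 := hcon x
    obtain ⟨a, ha⟩ := Nat.exists_eq_add_of_le h2
    rw [ha] at e2 ⊢
    rw [Nat.add_sub_cancel_left] at e2
    rw [← e1] at e2 ⊢
    nlinarith
  have hsum : U.card * ∑ x, w x * ((Q G U Y).filter (fun p => x ∈ sep G p.1 p.2)).card ≤
      κ * (Q G U Y).card * ∑ x, w x := by
    rw [Finset.mul_sum, Finset.mul_sum]
    refine Finset.sum_le_sum fun x _ => ?_
    calc U.card * (w x * ((Q G U Y).filter (fun p => x ∈ sep G p.1 p.2)).card)
        = w x * (U.card * ((Q G U Y).filter (fun p => x ∈ sep G p.1 p.2)).card) := by ring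
      _ ≤ w x * (κ * (Q G U Y).card) := Nat.mul_le_mul_left _ (hlt x)
      _ = _ := by ring
  have hdc : ∑ x, w x * ((Q G U Y).filter (fun p => x ∈ sep G p.1 p.2)).card =
      ∑ p ∈ Q G U Y, ∑ x ∈ sep G p.1 p.2, w x := by
    have : ∀ p ∈ Q G U Y, ∑ x ∈ sep G p.1 p.2, w x =
        ∑ x, if x ∈ sep G p.1 p.2 then w x else 0 := by
      intro p _
      rw [← Finset.sum_filter]
      congr 1
      ext x
      simp
    rw [Finset.sum_congr rfl this, Finset.sum_comm]
    refine Finset.sum_congr rfl fun x _ => ?_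
    rw [Finset.card_filter, Finset.mul_sum]
    refine Finset.sum_congr rfl fun p _ => ?_
    split_ifs <;> simp
  have hne : (Q G U Y).Nonempty := by
    rw [Finset.nonempty_iff_ne_empty]
    intro h0
    have e1 := hsplit x0
    have e2 := hcon x0
    rw [h0] at e1 e2
    simp only [Finset.card_empty, mul_zero, Finset.filter_empty, add_zero] at e1 e2
    rw [e1] at e2
    simp at e2
  have hgt : κ * (Q G U Y).card * ∑ x, w x < U.card * ∑ p ∈ Q G U Y, ∑ x ∈ sep G p.1 p.2, w x := by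
    calc κ * (Q G U Y).card * ∑ x, w x = ∑ p ∈ Q G U Y, κ * ∑ x, w x := by
          rw [Finset.sum_const, smul_eq_mul]; ring
      _ < ∑ p ∈ Q G U Y, U.card * ∑ x ∈ sep G p.1 p.2, w x := by
          refine Finset.sum_lt_sum_of_nonempty hne fun p hp => ?_
          simp only [Q, Finset.mem_filter, Finset.mem_product] at hp
          exact h p.1 hp.1.1 p.2 hp.1.2 hp.2.1
      _ = _ := by rw [Finset.mul_sum]
  rw [hdc] at hsum
  omega

theorem iter {V : Type} [Fintype V] (G : SimpleGraph V) (U : Finset V) (w : V → ℕ) (κ : ℕ)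
    (h1 : 1 ≤ κ) (h2 : κ ≤ U.card)
    (h : ∀ a ∈ U, ∀ b ∈ U, a ≠ b → κ * ∑ x, w x < U.card * ∑ x ∈ sep G a b, w x)
    (T : ℕ) : ∃ Y : Finset V, Y.card ≤ T ∧
      (Q G U Y).card * U.card ^ T ≤ (U.card - κ) ^ T * U.card ^ 2 := by
  induction T with
  | zero =>
    refine ⟨∅, by simp, ?_⟩
    simp only [pow_zero, mul_one, one_mul]
    have hsub : Q G U ∅ ⊆ U ×ˢ U := by
      intro p hp
      simp only [Q, Finset.mem_filter] at hp
      exact hp.1
    refine (Finset.card_le_card hsub).trans ?_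
    rw [Finset.card_product, sq]
  | succ T ih =>
    obtain ⟨Y, hY, hQ⟩ := ih
    obtain ⟨x, hx⟩ := step G U w κ h1 h2 h Y
    refine ⟨insert x Y, (Finset.card_insert_le _ _).trans (by omega), ?_⟩
    calc (Q G U (insert x Y)).card * U.card ^ (T + 1)
        = ((Q G U (insert x Y)).card * U.card) * U.card ^ T := by ring
      _ ≤ ((U.card - κ) * (Q G U Y).card) * U.card ^ T := Nat.mul_le_mul_right _ hx
      _ = (U.card - κ) * ((Q G U Y).card * U.card ^ T) := by ring
      _ ≤ (U.card - κ) * ((U.card - κ) ^ T * U.card ^ 2) := Nat.mul_le_mul_left _ hQ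
      _ = _ := by ring

theorem bern (a κ t : ℕ) (ht : 1 ≤ t) (h : a + κ ≤ t * κ) : 2 * a ^ t ≤ (a + κ) ^ t := by
  rcases Nat.eq_zero_or_pos a with rfl | ha
  · rw [zero_pow (by omega)]; simp
  · have haR : (0 : ℝ) < a := by exact_mod_cast ha
    have hb := one_add_mul_le_pow (R := ℝ) (a := (κ : ℝ) / a) (by
      have : (0 : ℝ) ≤ (κ : ℝ) / a := by positivity
      linarith) t
    have h3 : (1 : ℝ) ≤ t * ((κ : ℝ) / a) := by
      rw [← mul_div_assoc, le_div_iff₀ haR, one_mul]
      have : ((a + κ : ℕ) : ℝ) ≤ ((t * κ : ℕ) : ℝ) := by exact_mod_cast h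
      push_cast at this
      have h4 : (0 : ℝ) ≤ κ := by positivity
      linarith
    have h5 : (2 : ℝ) ≤ (1 + (κ : ℝ) / a) ^ t := by linarith
    have h6 : ((a : ℝ) + κ) ^ t = a ^ t * (1 + (κ : ℝ) / a) ^ t := by
      rw [← mul_pow]
      congr 1
      field_simp
    have h7 : (2 : ℝ) * a ^ t ≤ (a + κ) ^ t := by
      rw [h6]
      have : (0 : ℝ) < (a : ℝ) ^ t := by positivity
      nlinarith
    exact_mod_cast h7

theorem samp : S_SAMP := by
  intro V _ G U w κ h1 h2 h
  set u := U.card with hu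
  set t := u / κ + 1 with ht
  set s := 2 * Nat.log 2 u + 2 with hs
  obtain ⟨Y, hY, hQ⟩ := iter G U w κ h1 h2 h (s * t)
  refine ⟨Y, hY, ?_⟩
  rw [← hu] at hQ
  have hupos : 0 < u := by omega
  have ht1 : 1 ≤ t := Nat.le_add_left 1 _
  have hs1 : 1 ≤ s := by omega
  have hst : s * t ≠ 0 := Nat.mul_ne_zero (by omega) (by omega)
  have htk : u ≤ t * κ := by
    have := Nat.lt_div_mul_add (a := u) (b := κ) h1
    rw [ht, add_mul, one_mul]
    exact this.le
  obtain ⟨a, ha⟩ := Nat.exists_eq_add_of_le h2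
  have ha' : u - κ = a := by omega
  have hak : a + κ = u := by omega
  have hb : 2 * a ^ t ≤ u ^ t := by
    have := bern a κ t ht1 (by rw [hak]; exact htk)
    rwa [hak] at this
  have hu2 : u ^ 2 < 2 ^ s := by
    have := Nat.lt_pow_succ_log_self (b := 2) (by norm_num) u
    calc u ^ 2 < (2 ^ (Nat.log 2 u + 1)) ^ 2 := Nat.pow_lt_pow_left this (by norm_num)
      _ = 2 ^ s := by rw [← pow_mul]; congr 1; omega
  have hfin : a ^ (s * t) * u ^ 2 < u ^ (s * t) := by
    rcases Nat.eq_zero_or_pos a with h0 | h0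
    · rw [h0, zero_pow hst, zero_mul]
      exact Nat.pow_pos hupos
    · calc a ^ (s * t) * u ^ 2 < a ^ (s * t) * 2 ^ s :=
            Nat.mul_lt_mul_of_pos_left hu2 (by positivity)
        _ = (2 * a ^ t) ^ s := by rw [mul_pow, ← pow_mul, mul_comm s t]; ring
        _ ≤ (u ^ t) ^ s := Nat.pow_le_pow_left hb s
        _ = u ^ (s * t) := by rw [← pow_mul, mul_comm]
  rw [ha'] at hQ
  have hQ0 : (Q G U Y).card = 0 := by
    by_contra hne
    have : 1 * u ^ (s * t) ≤ (Q G U Y).card * u ^ (s * t) :=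
      Nat.mul_le_mul_right _ (Nat.one_le_iff_ne_zero.mpr hne)
    omega
  rw [Finset.card_eq_zero] at hQ0
  intro a ha b hb hab
  by_contra hcon
  push Not at hcon
  have : (a, b) ∈ Q G U Y := by
    simp only [Q, Finset.mem_filter, Finset.mem_product]
    exact ⟨⟨ha, hb⟩, hab, hcon⟩
  rw [hQ0] at this
  simp at this

end Pool.Agent.W654.PL
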